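import Pool.Agent.H75B.Nhds

set_option autoImplicit false

open scoped ContDiff
open Set Filter Topology

namespace Pool.Agent.H75G

open Pool.Agent.H45F Pool.Agent.H75S Pool.Agent.H75B Pool.Agent.H75T

/-- the derivatives of order `≤ r` of the displacement are bounded by `ε` -/
def Bd (r : ℕ) (ε : ℝ) (g : DiffC) : Prop :=
  ∀ j ≤ r, ∀ z : ℂ, ‖iteratedFDeriv ℝ j (fun w => (g : Equiv.Perm ℂ) w - w) z‖ ≤ ε

theorem small_iff {R : ℝ} {r : ℕ} {ε : ℝ} {g : DiffC} :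
    Small R r ε g ↔ g ∈ discSub R ∧ Bd r ε g := Iff.rfl

/-- diffeomorphisms with disjoint supports -/
theorem bd_mul_disj {f g : DiffC} {C₁ C₂ : Set ℂ} (h1 : IsClosed C₁) (h2 : IsClosed C₂)
    (hd : Disjoint C₁ C₂) (hf : ∀ z, z ∉ C₁ → (f : Equiv.Perm ℂ) z = z)
    (hg : ∀ z, z ∉ C₂ → (g : Equiv.Perm ℂ) z = z) {r : ℕ} {ε : ℝ} (bf : Bd r ε f)
    (bg : Bd r ε g) : Bd r ε (f * g) := by
  intro j hj z
  have hfg : ∀ w, ((f * g : DiffC) : Equiv.Perm ℂ) w = (f : Equiv.Perm ℂ) ((g : Equiv.Perm ℂ) w) :=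
    fun w => rfl
  by_cases hz : z ∈ C₂
  · -- near `z` the map is `g`
    have hz1 : z ∉ C₁ := fun h => (Set.disjoint_left.mp hd) h hz
    have he : (fun w => ((f * g : DiffC) : Equiv.Perm ℂ) w - w) =ᶠ[𝓝 z]
        fun w => (g : Equiv.Perm ℂ) w - w := by
      filter_upwards [h1.isOpen_compl.mem_nhds hz1] with w hw
      rw [hfg]
      by_cases hw2 : w ∈ C₂
      · have h3 : (g : Equiv.Perm ℂ) w ∈ C₂ := by
          by_contra h
          have h4 := (g : Equiv.Perm ℂ).injective (hg _ h)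
          rw [h4] at h
          exact h hw2
        rw [hf _ (fun h => (Set.disjoint_left.mp hd) h h3)]
      · rw [hg w hw2, hf w hw]
    rw [(he.iteratedFDeriv ℝ j).eq_of_nhds]
    exact bg j hj z
  · have he : (fun w => ((f * g : DiffC) : Equiv.Perm ℂ) w - w) =ᶠ[𝓝 z]
        fun w => (f : Equiv.Perm ℂ) w - w := by
      filter_upwards [h2.isOpen_compl.mem_nhds hz] with w hw
      rw [hfg, hg w hw]
    rw [(he.iteratedFDeriv ℝ j).eq_of_nhds]
    exact bf j hj z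

/-- conjugation by a similarity -/
theorem conj_simi {τ v : DiffC} {c : ℂ} {ρ s : ℝ} (hρ : 0 < ρ)
    (hτ : ∀ z : ℂ, ‖z‖ ≤ s → (τ : Equiv.Perm ℂ) z = c + ρ • z) (hv : v ∈ discSub s)
    {r : ℕ} {ε ε' : ℝ} (bv : Bd r ε v) (hε : ∀ j ≤ r, ρ * (ρ⁻¹) ^ j * ε ≤ ε') :
    (∀ z : ℂ, ρ * s ≤ ‖z - c‖ → ((τ * v * τ⁻¹ : DiffC) : Equiv.Perm ℂ) z = z) ∧
      Bd r ε' (τ * v * τ⁻¹) := by
  set u : ℂ → ℂ := fun w => (v : Equiv.Perm ℂ) w - w with hu
  have hus : ∀ z, s ≤ ‖z‖ → u z = 0 := fun z hz => by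
    rw [hu]; simp only; rw [hv z hz, sub_self]
  have hsm : ContDiff ℝ ∞ u := v.2.1.sub contDiff_id
  have key : ∀ w, ((τ * v * τ⁻¹ : DiffC) : Equiv.Perm ℂ) w = w + rs c ρ u w := by
    intro w
    have e0 : ((τ * v * τ⁻¹ : DiffC) : Equiv.Perm ℂ) w =
        (τ : Equiv.Perm ℂ) ((v : Equiv.Perm ℂ) (((τ⁻¹ : DiffC) : Equiv.Perm ℂ) w)) := rfl
    rw [e0]
    set y : ℂ := ((τ⁻¹ : DiffC) : Equiv.Perm ℂ) w with hy
    have hty : (τ : Equiv.Perm ℂ) y = w := by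
      rw [hy, Subgroup.coe_inv]
      exact Equiv.apply_symm_apply _ _
    by_cases hys : ‖y‖ < s
    · have hvy : ‖(v : Equiv.Perm ℂ) y‖ < s := by
        by_contra h
        push Not at h
        have h4 := (v : Equiv.Perm ℂ).injective (hv _ h)
        rw [h4] at h
        linarith
      have h1 : w = c + ρ • y := by rw [← hty, hτ y hys.le]
      have h2 : ρ⁻¹ • (w - c) = y := by
        rw [h1, add_sub_cancel_left, smul_smul, inv_mul_cancel₀ hρ.ne', one_smul]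
      rw [hτ _ hvy.le]
      unfold rs
      rw [h2, hu]
      simp only
      rw [smul_sub, h1]
      ring
    · push Not at hys
      rw [hv y hys, hty]
      have h1 : rs c ρ u w = 0 := by
        unfold rs
        by_cases hζ : ‖ρ⁻¹ • (w - c)‖ < s
        · exfalso
          have h3 : (τ : Equiv.Perm ℂ) (ρ⁻¹ • (w - c)) = w := by
            rw [hτ _ hζ.le, smul_smul, mul_inv_cancel₀ hρ.ne', one_smul]; ring
          have h4 := (τ : Equiv.Perm ℂ).injective (h3.trans hty.symm)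
          rw [h4] at hζ
          linarith
        · push Not at hζ
          rw [hus _ hζ, smul_zero]
      rw [h1, add_zero]
  refine ⟨fun z hz => ?_, fun j hj z => ?_⟩
  · rw [key z, rs_supp hus c hρ hz, add_zero]
  · have he : (fun w => ((τ * v * τ⁻¹ : DiffC) : Equiv.Perm ℂ) w - w) = rs c ρ u := by
      funext w
      rw [key w]; ring
    rw [he]
    exact le_trans (rs_bound hsm c hρ j (fun z => bv j hj z) z) (hε j hj)

/-- shrinking a small diffeomorphism -/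
theorem small_scal (R' : ℝ) {s : ℝ} (hs : 0 < s) (r : ℕ) {ε : ℝ} (hε : 0 < ε) :
    ∃ θ : DiffC, ∃ ε' : ℝ, 0 < ε' ∧ ∀ g : DiffC, Small R' r ε' g →
      Small s r ε (θ * g * θ⁻¹ : DiffC) := by
  set ρ : ℝ := min 1 (s / (|R'| + 1)) with hρdef
  have hR : 0 ≤ |R'| := abs_nonneg R'
  have hρ : 0 < ρ := lt_min one_pos (by positivity)
  have hρ1 : ρ ≤ 1 := min_le_left _ _
  obtain ⟨θ, hθ⟩ := exists_similarity 0 ρ hρ R'
  refine ⟨θ, ε / (ρ⁻¹) ^ r, by positivity, fun g hg => ?_⟩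
  have hg' : g ∈ discSub R' := hg.1
  obtain ⟨h1, h2⟩ := conj_simi (c := 0) (ε' := ε) hρ hθ hg' hg.2 (fun j hj => by
    have hi : 1 ≤ ρ⁻¹ := (one_le_inv₀ hρ).mpr hρ1
    have h3 : (ρ⁻¹) ^ j ≤ (ρ⁻¹) ^ r := pow_le_pow_right₀ hi hj
    calc ρ * (ρ⁻¹) ^ j * (ε / (ρ⁻¹) ^ r) ≤ 1 * (ρ⁻¹) ^ r * (ε / (ρ⁻¹) ^ r) := by
          refine mul_le_mul_of_nonneg_right ?_ (by positivity)
          exact mul_le_mul hρ1 h3 (by positivity) zero_le_one
      _ = ε := by field_simp)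
  refine ⟨fun z hz => h1 z ?_, h2⟩
  rw [sub_zero]
  refine le_trans ?_ hz
  calc ρ * R' ≤ ρ * (|R'| + 1) := mul_le_mul_of_nonneg_left (by linarith [le_abs_self R']) hρ.le
    _ ≤ s / (|R'| + 1) * (|R'| + 1) := mul_le_mul_of_nonneg_right (min_le_right _ _) (by positivity)
    _ = s := by field_simp

end Pool.Agent.H75G
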