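import Pool.Agent.H75B.Baire
import Pool.Agent.H75B.Inv

set_option autoImplicit false

open scoped ContDiff commutatorElement
open Set Filter Topology

namespace Pool.Agent.H75G

open Pool.Agent.H45F Pool.Agent.H75S Pool.Agent.H75B

/-
A6. Products of at most m commutators of small elements are small.  Topology of DiffC: H75B (topological group on NF R = 𝓝[discSub R] 1,
see Nhds: small_mem, small_subset; Alg: continuity of the operations).
-/

namespace Cm

theorem small_mono {R : ℝ} {r r' : ℕ} {ε ε' : ℝ} (hr : r ≤ r') (hε : ε' ≤ ε) {g : Equiv.Perm ℂ}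
    (h : Small R r' ε' g) : Small R r ε g :=
  ⟨h.1, fun j hj z => (h.2 j (hj.trans hr) z).trans hε⟩

theorem tendsto_mul (R : ℝ) : Tendsto (fun q : DiffC × DiffC => q.1 * q.2) (NF R ×ˢ NF R) (NF R) := by
  have h1 : Tendsto (fun q : DiffC × DiffC => q.1) (NF R ×ˢ NF R) (NF R) := tendsto_fst
  have h2 : Tendsto (fun q : DiffC × DiffC => q.2) (NF R ×ˢ NF R) (NF R) := tendsto_snd
  rw [tendsto_NF] at h1 h2
  refine tendsto_NF.mpr ⟨by simpa using h1.1.mul h2.1, ?_⟩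
  filter_upwards [h1.2, h2.2] with q hq hq'
  exact (discSub _).mul_mem hq hq'

theorem tendsto_comm (R : ℝ) : Tendsto (fun q : DiffC × DiffC => ⁅q.1, q.2⁆) (NF R ×ˢ NF R) (NF R) := by
  have h1 : Tendsto (fun q : DiffC × DiffC => q.1) (NF R ×ˢ NF R) (NF R) := tendsto_fst
  have h2 : Tendsto (fun q : DiffC × DiffC => q.2) (NF R ×ˢ NF R) (NF R) := tendsto_snd
  rw [tendsto_NF] at h1 h2
  refine tendsto_NF.mpr ⟨?_, ?_⟩
  · have h3 := ((h1.1.mul h2.1).mul h1.1.inv).mul h2.1.inv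
    simpa [commutatorElement_def] using h3
  · filter_upwards [h1.2, h2.2] with q hq hq'
    rw [commutatorElement_def]
    exact (discSub _).mul_mem ((discSub _).mul_mem ((discSub _).mul_mem hq hq')
      ((discSub _).inv_mem hq)) ((discSub _).inv_mem hq')

theorem exists_sq {R : ℝ} {f : DiffC × DiffC → DiffC} (hf : Tendsto f (NF R ×ˢ NF R) (NF R)) {V : Set DiffC}
    (hV : V ∈ NF R) : ∃ W ∈ NF R, ∀ a ∈ W, ∀ b ∈ W, f (a, b) ∈ V := by
  obtain ⟨W, hW, hWV⟩ := Filter.mem_prod_same_iff.1 (hf hV)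
  exact ⟨W, hW, fun a ha b hb => hWV ⟨ha, hb⟩⟩

theorem lw_nhds (R : ℝ) (m : ℕ) : ∀ V ∈ NF R, ∃ W ∈ NF R, ∀ L : List (DiffC × DiffC), L.length ≤ m →
    (∀ q ∈ L, q.1 ∈ W ∧ q.2 ∈ W) → (lw L : DiffC) ∈ V := by
  induction m with
  | zero =>
    intro V hV
    refine ⟨V, hV, fun L hL _ => ?_⟩
    have h1 : L = [] := List.length_eq_zero_iff.1 (Nat.le_zero.1 hL)
    rw [h1]
    have h2 : (1 : DiffC) ∈ V := mem_of_mem_nhdsWithin (discSub R).one_mem hV
    simpa [lw] using h2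
  | succ m ih =>
    intro V hV
    obtain ⟨V1, hV1, h1⟩ := exists_sq (tendsto_mul R) hV
    obtain ⟨W1, hW1, h2⟩ := exists_sq (tendsto_comm R) hV1
    obtain ⟨W2, hW2, h3⟩ := ih V1 hV1
    refine ⟨W1 ∩ W2, inter_mem hW1 hW2, fun L hL hq => ?_⟩
    rcases L with _ | ⟨q, L⟩
    · have h4 : (1 : DiffC) ∈ V := mem_of_mem_nhdsWithin (discSub R).one_mem hV
      simpa [lw] using h4
    · have h5 : (lw (q :: L) : DiffC) = ⁅q.1, q.2⁆ * lw L := by simp [lw]
      rw [h5]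
      have h6 := hq q List.mem_cons_self
      refine h1 _ (h2 _ h6.1.1 _ h6.2.1) _ (h3 L (by simpa using hL) fun q' hq' => ?_)
      have h7 := hq q' (List.mem_cons_of_mem _ hq')
      exact ⟨h7.1.2, h7.2.2⟩

end Cm

theorem comm_nhds (m : ℕ) (R : ℝ) (r : ℕ) {ε : ℝ} (hε : 0 < ε) :
    ∃ (r' : ℕ) (ε' : ℝ), r ≤ r' ∧ 0 < ε' ∧ ε' ≤ ε ∧ ∀ L : List (DiffC × DiffC), L.length ≤ m →
      (∀ q ∈ L, Small R r' ε' q.1 ∧ Small R r' ε' q.2) → Small R r ε (lw L : DiffC) := by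
  obtain ⟨W, hW, h1⟩ := Cm.lw_nhds R m _ (small_mem R r hε)
  obtain ⟨r1, ε1, hε1, h2⟩ := exists_small_subset R hW
  obtain ⟨r2, ε2, hε2, h3⟩ := small_inv R r1 hε1
  refine ⟨max r (max r1 r2), min ε (min ε1 ε2), le_max_left _ _, lt_min hε (lt_min hε1 hε2), min_le_left _ _,
    fun L hL hq => ?_⟩
  have key : ∀ g : DiffC, Small R (max r (max r1 r2)) (min ε (min ε1 ε2)) g → g ∈ W := by
    intro g hg
    refine h2 g (Cm.small_mono ((le_max_left _ _).trans (le_max_right _ _))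
      ((min_le_right _ _).trans (min_le_left _ _)) hg) (h3 g ?_)
    exact Cm.small_mono ((le_max_right _ _).trans (le_max_right _ _))
      ((min_le_right _ _).trans (min_le_right _ _)) hg
  exact h1 L hL fun q hq' => ⟨key _ (hq q hq').1, key _ (hq q hq').2⟩

end Pool.Agent.H75G
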