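import Pool.Agent.H75G.Two

set_option autoImplicit false

open scoped ContDiff commutatorElement
open Set Filter Topology

namespace Pool.Agent.H75G

open Pool.Agent.H45F Pool.Agent.H75S Pool.Agent.H75T Pool.Agent.H75B

theorem GT_one {E : Type*} [Group E] (p : E →* DiffC) (r : ℕ) {ε : ℝ} (hε : 0 ≤ ε) :
    (1 : E) ∈ GT p r ε := by
  refine ⟨p.ker.one_mem, 1, 1, 1, 1, by simp, ?_, ?_, ?_, ?_⟩ <;>
  · rw [map_one]; exact Small.one hε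

theorem GT_inv {E : Type*} [Group E] (p : E →* DiffC) {r : ℕ} {ε : ℝ} {z : E}
    (hz : z ∈ GT p r ε) : z⁻¹ ∈ GT p r ε := by
  obtain ⟨hk, A, B, F, T, rfl, h1, h2, h3, h4⟩ := hz
  refine ⟨p.ker.inv_mem hk, T, F, B, A, ?_, h4, h3, h2, h1⟩
  simp only [commutatorElement_def]
  group

/-- the product of two elements supported in disjoint discs of radius `1/4` -/
theorem small_prod {θ₁ θ₂ : DiffC}
    (h₁ : ∀ z : ℂ, ‖z‖ ≤ 1 → (θ₁ : Equiv.Perm ℂ) z = (-1 / 2 : ℂ) + (1 / 4 : ℝ) • z)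
    (h₂ : ∀ z : ℂ, ‖z‖ ≤ 1 → (θ₂ : Equiv.Perm ℂ) z = (1 / 2 : ℂ) + (1 / 4 : ℝ) • z)
    {ε : ℝ} (hε : 0 ≤ ε) {u v : DiffC} (hu : Small 1 1 ε u) (hv : Small 1 1 ε v) :
    Small 1 1 ε ((θ₁ * u * θ₁⁻¹) * (θ₂ * v * θ₂⁻¹) : DiffC) := by
  have hj : ∀ j ≤ 1, (1 / 4 : ℝ) * ((1 / 4 : ℝ)⁻¹) ^ j * ε ≤ ε := by
    intro j hj
    interval_cases j
    · norm_num; linarith
    · norm_num
  obtain ⟨f1, b1⟩ := conj_simi (by norm_num) h₁ hu.1 hu.2 hj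
  obtain ⟨f2, b2⟩ := conj_simi (by norm_num) h₂ hv.1 hv.2 hj
  refine ⟨fun z hz => ?_, ?_⟩
  · have e1 : (1 / 4 : ℝ) * 1 ≤ ‖z - (-1 / 2)‖ := by
      have := norm_sub_norm_le z (-1 / 2 : ℂ)
      have h' : ‖(-1 / 2 : ℂ)‖ = 1 / 2 := by
        rw [norm_div, norm_neg, norm_one]; norm_num
      rw [h'] at this
      linarith
    have e2 : (1 / 4 : ℝ) * 1 ≤ ‖z - (1 / 2)‖ := by
      have := norm_sub_norm_le z (1 / 2 : ℂ)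
      have h' : ‖(1 / 2 : ℂ)‖ = 1 / 2 := by
        rw [norm_div, norm_one]; norm_num
      rw [h'] at this
      linarith
    rw [Subgroup.coe_mul, Equiv.Perm.mul_apply, f2 z e2, f1 z e1]
  · refine bd_mul_disj (C₁ := Metric.closedBall (-1 / 2 : ℂ) (1 / 4))
      (C₂ := Metric.closedBall (1 / 2 : ℂ) (1 / 4)) Metric.isClosed_closedBall
      Metric.isClosed_closedBall ?_ ?_ ?_ b1 b2
    · refine Metric.closedBall_disjoint_closedBall ?_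
      rw [dist_eq_norm, show (-1 / 2 - 1 / 2 : ℂ) = -1 by norm_num, norm_neg, norm_one]
      norm_num
    · intro z hz
      rw [Metric.mem_closedBall, not_le, dist_eq_norm] at hz
      exact f1 z (by linarith)
    · intro z hz
      rw [Metric.mem_closedBall, not_le, dist_eq_norm] at hz
      exact f2 z (by linarith)

theorem commute_lifts {E : Type*} [Group E] (p : E →* DiffC) (hp : Function.Surjective p)
    (hc : p.ker ≤ Subgroup.center E) (hE : commutator E = ⊤) {t₁ t₂ : E}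
    (h₁ : ∀ z : ℂ, ‖z‖ ≤ 1 → (p t₁ : Equiv.Perm ℂ) z = (-1 / 2 : ℂ) + (1 / 4 : ℝ) • z)
    (h₂ : ∀ z : ℂ, ‖z‖ ≤ 1 → (p t₂ : Equiv.Perm ℂ) z = (1 / 2 : ℂ) + (1 / 4 : ℝ) • z)
    {ε : ℝ} (hε : 0 ≤ ε) {X Y : E} (hX : Small 1 1 ε (p X)) (hY : Small 1 1 ε (p Y)) :
    Commute (t₁ * X * t₁⁻¹) (t₂ * Y * t₂⁻¹) := by
  have hj : ∀ j ≤ 1, (1 / 4 : ℝ) * ((1 / 4 : ℝ)⁻¹) ^ j * ε ≤ ε := by
    intro j hj
    interval_cases j
    · norm_num; linarith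
    · norm_num
  obtain ⟨f1, -⟩ := conj_simi (by norm_num) h₁ hX.1 hX.2 hj
  obtain ⟨f2, -⟩ := conj_simi (by norm_num) h₂ hY.1 hY.2 hj
  refine commute_of_chart p hp hc hE (isChart_ball (-1 / 2 : ℂ) (r := 1 / 3) (by norm_num)) _ _
    ⟨Metric.closedBall (-1 / 2 : ℂ) (1 / 4), isCompact_closedBall _ _,
      Metric.closedBall_subset_ball (by norm_num), fun z hz => ?_⟩ fun z hz => ?_
  · rw [Metric.mem_closedBall, not_le, dist_eq_norm] at hz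
    rw [map_mul, map_mul, map_inv]
    exact f1 z (by linarith)
  · rw [Metric.mem_ball, dist_eq_norm] at hz
    rw [map_mul, map_mul, map_inv]
    refine f2 z ?_
    have h3 : (1 : ℝ) ≤ ‖z - 1 / 2‖ + ‖z - (-1 / 2)‖ := by
      have := norm_sub_le (z - 1 / 2) (z - (-1 / 2))
      rw [show (z - 1 / 2) - (z - (-1 / 2)) = -1 by ring, norm_neg, norm_one] at this
      exact this
    linarith

/-
M4. w = [A,B][F,T], w' = [A',B'][F',T'] in ker p, C¹-small (r = 1) in the unit disc.  θ₁ z = -1/2 + z/4, θ₂ z = 1/2 + z/4 on |z| ≤ 1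
(exists_similarity), lifts θ₁', θ₂'.  A'' = (θ₁' A θ₁'⁻¹)(θ₂' A' θ₂'⁻¹) etc.; all lifts of the first kind commute with all of the second
(commute_of_chart, ball of centre -1/2 and radius 1/3); commutator_mul_mul / wd_mul (H75S.Word) and centrality give
[A'',B''][F'',T''] = w w'.  Bounds: conj_simi with ρ = 1/4, r = 1 (ρ ρ^(-j) ≤ 1 for j ≤ 1), bd_mul_disj.
-/
theorem GT_mul {E : Type*} [Group E] (p : E →* DiffC) (hp : Function.Surjective p)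
    (hc : p.ker ≤ Subgroup.center E) (hE : commutator E = ⊤) {ε : ℝ} (hε : 0 ≤ ε) {z z' : E}
    (hz : z ∈ GT p 1 ε) (hz' : z' ∈ GT p 1 ε) : z * z' ∈ GT p 1 ε := by
  obtain ⟨hk, A, B, F, T, h0, hA, hB, hF, hT⟩ := hz
  obtain ⟨hk', A', B', F', T', h0', hA', hB', hF', hT'⟩ := hz'
  obtain ⟨θ₁, h₁⟩ := exists_similarity (-1 / 2 : ℂ) (1 / 4) (by norm_num) 1
  obtain ⟨θ₂, h₂⟩ := exists_similarity (1 / 2 : ℂ) (1 / 4) (by norm_num) 1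
  obtain ⟨t₁, rfl⟩ := hp θ₁
  obtain ⟨t₂, rfl⟩ := hp θ₂
  have hS : ∀ X Y : E, Small 1 1 ε (p X) → Small 1 1 ε (p Y) →
      Small 1 1 ε (p ((t₁ * X * t₁⁻¹) * (t₂ * Y * t₂⁻¹))) := by
    intro X Y hX hY
    simp only [map_mul, map_inv]
    exact small_prod h₁ h₂ hε hX hY
  have hC : ∀ X Y : E, Small 1 1 ε (p X) → Small 1 1 ε (p Y) →
      Commute (t₁ * X * t₁⁻¹) (t₂ * Y * t₂⁻¹) := fun X Y hX hY =>
    commute_lifts p hp hc hE h₁ h₂ hε hX hY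
  refine ⟨p.ker.mul_mem hk hk', (t₁ * A * t₁⁻¹) * (t₂ * A' * t₂⁻¹),
    (t₁ * B * t₁⁻¹) * (t₂ * B' * t₂⁻¹), (t₁ * F * t₁⁻¹) * (t₂ * F' * t₂⁻¹),
    (t₁ * T * t₁⁻¹) * (t₂ * T' * t₂⁻¹), ?_, hS _ _ hA hA', hS _ _ hB hB', hS _ _ hF hF',
    hS _ _ hT hT'⟩
  rw [commutator_mul_mul (hC _ _ hA hA') (hC _ _ hA hB') (hC _ _ hB hA') (hC _ _ hB hB'),
    commutator_mul_mul (hC _ _ hF hF') (hC _ _ hF hT') (hC _ _ hT hF') (hC _ _ hT hT')]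
  have hcm : Commute ⁅t₂ * A' * t₂⁻¹, t₂ * B' * t₂⁻¹⁆ ⁅t₁ * F * t₁⁻¹, t₁ * T * t₁⁻¹⁆ :=
    commute_commutator
      (commute_commutator (hC _ _ hF hA') (hC _ _ hT hA')).symm
      (commute_commutator (hC _ _ hF hB') (hC _ _ hT hB')).symm
  have e1 : ⁅t₁ * A * t₁⁻¹, t₁ * B * t₁⁻¹⁆ * ⁅t₁ * F * t₁⁻¹, t₁ * T * t₁⁻¹⁆ = z := by
    have h3 : t₁ * z = z * t₁ := Subgroup.mem_center_iff.mp (hc hk) t₁
    calc _ = t₁ * (⁅A, B⁆ * ⁅F, T⁆) * t₁⁻¹ := by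
          simp only [commutatorElement_def]; group
      _ = z := by rw [← h0, h3, mul_inv_cancel_right]
  have e2 : ⁅t₂ * A' * t₂⁻¹, t₂ * B' * t₂⁻¹⁆ * ⁅t₂ * F' * t₂⁻¹, t₂ * T' * t₂⁻¹⁆ = z' := by
    have h3 : t₂ * z' = z' * t₂ := Subgroup.mem_center_iff.mp (hc hk') t₂
    calc _ = t₂ * (⁅A', B'⁆ * ⁅F', T'⁆) * t₂⁻¹ := by
          simp only [commutatorElement_def]; group
      _ = z' := by rw [← h0', h3, mul_inv_cancel_right]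
  calc z * z' = (⁅t₁ * A * t₁⁻¹, t₁ * B * t₁⁻¹⁆ * ⁅t₁ * F * t₁⁻¹, t₁ * T * t₁⁻¹⁆) *
        (⁅t₂ * A' * t₂⁻¹, t₂ * B' * t₂⁻¹⁆ * ⁅t₂ * F' * t₂⁻¹, t₂ * T' * t₂⁻¹⁆) := by rw [e1, e2]
    _ = ⁅t₁ * A * t₁⁻¹, t₁ * B * t₁⁻¹⁆ * (⁅t₂ * A' * t₂⁻¹, t₂ * B' * t₂⁻¹⁆ *
        ⁅t₁ * F * t₁⁻¹, t₁ * T * t₁⁻¹⁆) * ⁅t₂ * F' * t₂⁻¹, t₂ * T' * t₂⁻¹⁆ := by
          rw [hcm.eq]; simp only [mul_assoc]
    _ = _ := by simp only [mul_assoc]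

end Pool.Agent.H75G
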