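import Pool.Agent.H75G.Ker
import Pool.Agent.H75G.Mul

set_option autoImplicit false

open scoped ContDiff commutatorElement
open Set Filter Topology

namespace Pool.Agent.H75G

open Pool.Agent.H45F Pool.Agent.H75S Pool.Agent.H75T Pool.Agent.H75B

universe u

variable {E : Type u} [Group E] (p : E →* DiffC) (hp : Function.Surjective p)
  (hc : p.ker ≤ Subgroup.center E) (hE : commutator E = ⊤)

include hp hc hE in
/-- the small classes of genus two generate the kernel -/
theorem closure_GT (r : ℕ) {ε : ℝ} (hε : 0 < ε) : Subgroup.closure (GT p r ε) = p.ker := by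
  classical
  have hle : Subgroup.closure (GT p r ε) ≤ p.ker :=
    (Subgroup.closure_le _).mpr fun z hz => hz.1
  refine le_antisymm hle (ker_le p hp hc hE _ hle fun R => ?_)
  obtain ⟨k, R', hk⟩ := locally_perfect (commutator_diffC_eq_top p hp hE) R
  obtain ⟨r₁, ε₁, hε₁, hS⟩ := small_genus_two p hp hc hE (3 * k) R' r hε
  obtain ⟨r', ε', hε', hsub⟩ := small_subset R (hk _ (small_mem R' r₁ hε₁))
  have hrep : ∀ g : DiffC, ∃ x : E, p x = g ∧ (Small R r' ε' g → ∃ L : List (E × E),
      L.length = k ∧ (∀ q ∈ L, Small R' r₁ ε₁ (p q.1) ∧ Small R' r₁ ε₁ (p q.2)) ∧ x = lw L) := by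
    intro g
    by_cases hs : Small R r' ε' g
    · obtain ⟨L, h1, h2, h3⟩ := hsub g hs
      refine ⟨lw (L.map fun q => (lft p hp q.1, lft p hp q.2)), ?_, fun _ => ⟨_, ?_, ?_, rfl⟩⟩
      · rw [map_lw, List.map_map, h3]
        congr 1
        conv_rhs => rw [← List.map_id L]
        apply List.map_congr_left
        intro q _
        simp [p_lft]
      · rw [List.length_map, h1]
      · intro q hq
        rw [List.mem_map] at hq
        obtain ⟨q', hq', rfl⟩ := hq
        simp only [p_lft]
        exact h2 q' hq'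
    · exact ⟨lft p hp g, p_lft p hp g, fun h => absurd h hs⟩
  choose s hs1 hs2 using hrep
  refine ⟨r', ε', hε', s, hs1, fun g h hg hh hgh => ?_⟩
  obtain ⟨L1, l1, s1, e1⟩ := hs2 g hg
  obtain ⟨L2, l2, s2, e2⟩ := hs2 h hh
  obtain ⟨L3, l3, s3, e3⟩ := hs2 (g * h) hgh
  set L4 : List (E × E) := (L1 ++ L2) ++ (L3.reverse.map fun q => (q.2, q.1)) with hL4
  have e : lw L4 = s g * s h * (s (g * h))⁻¹ := by
    rw [hL4, lw_append, lw_append, lw_inv, e1, e2, e3]
  have hker : lw L4 ∈ p.ker := by
    rw [MonoidHom.mem_ker, e, map_mul, map_inv, map_mul, hs1, hs1, hs1]; group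
  rw [← e]
  refine Subgroup.subset_closure (hS L4 ?_ ?_ hker)
  · rw [hL4]; simp [l1, l2, l3]; omega
  · intro q hq
    rw [hL4, List.mem_append, List.mem_append, List.mem_map] at hq
    rcases hq with (hq | hq) | ⟨q', hq', rfl⟩
    · exact s1 q hq
    · exact s2 q hq
    · rw [List.mem_reverse] at hq'
      exact ⟨(s3 q' hq').2, (s3 q' hq').1⟩

include hp hc hE in
/-- every class is a `C¹`-small class of genus two -/
theorem mem_GT_one {ε : ℝ} (hε : 0 < ε) {z : E} (hz : z ∈ p.ker) : z ∈ GT p 1 ε := by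
  rw [← closure_GT p hp hc hE 1 hε] at hz
  induction hz using Subgroup.closure_induction with
  | mem x hx => exact hx
  | one => exact GT_one p 1 hε.le
  | mul x y _ _ hx hy => exact GT_mul p hp hc hE hε.le hx hy
  | inv x _ hx => exact GT_inv p hx

end Pool.Agent.H75G
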