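import Pool.Agent.H75B.Contr
import Pool.Agent.H75B.Strip
import Pool.Agent.H75B.Cover

set_option autoImplicit false

open scoped ContDiff commutatorElement Pointwise
open Set Filter Topology

namespace Pool.Agent.H75G

open Pool.Agent.H45F Pool.Agent.H75S Pool.Agent.H75T Pool.Agent.H75B

universe u

/-- a subgroup `K₀` of the kernel such that the extension modulo `K₀` splits locally is the whole
kernel -/
theorem ker_le {E : Type u} [Group E] (p : E →* DiffC) (hp : Function.Surjective p)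
    (hc : p.ker ≤ Subgroup.center E) (hE : commutator E = ⊤) (K₀ : Subgroup E) (hK₀ : K₀ ≤ p.ker)
    (hloc : ∀ R : ℝ, ∃ (r : ℕ) (ε : ℝ), 0 < ε ∧ ∃ s : DiffC → E, (∀ g, p (s g) = g) ∧
      ∀ g h : DiffC, Small R r ε g → Small R r ε h → Small R r ε (g * h : DiffC) →
        s g * s h * (s (g * h))⁻¹ ∈ K₀) : p.ker ≤ K₀ := by
  classical
  intro z hz
  have hnorm : K₀.Normal := by
    refine ⟨fun n hn g => ?_⟩
    have h := Subgroup.mem_center_iff.mp (hc (hK₀ hn)) g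
    rw [h, mul_inv_cancel_right]
    exact hn
  obtain ⟨L, hL⟩ := exists_list_of_commutator_top hE z
  obtain ⟨R₁, hR₁⟩ := exists_radius_list (L.map (fun q => p q.1) ++ L.map (fun q => p q.2))
  have hd1 : ∀ q ∈ L, p q.1 ∈ discSub R₁ := fun q hq =>
    hR₁ _ (List.mem_append_left _ (List.mem_map_of_mem hq))
  have hd2 : ∀ q ∈ L, p q.2 ∈ discSub R₁ := fun q hq =>
    hR₁ _ (List.mem_append_right _ (List.mem_map_of_mem hq))
  -- the finite set of letters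
  let 𝒦₁ : Set DiffC := {g | g ∈ L.map (fun q => p q.1) ++ L.map (fun q => p q.2)}
  have h𝒦₁f : 𝒦₁.Finite := List.finite_toSet _
  have h𝒦₁ : 𝒦₁ ⊆ discSub R₁ := fun g hg => hR₁ g hg
  obtain ⟨R₂, H₁, hR₁₂, hH₁c, hH₁e, hH₁d, -⟩ := exists_contr h𝒦₁f.isCompact h𝒦₁
  -- the compact set of the partial products
  let Im : Set DiffC := (fun q : DiffC × ℝ => H₁ q.1 q.2) '' (𝒦₁ ×ˢ Icc (0 : ℝ) 1)
  have hImc : IsCompact Im := (h𝒦₁f.isCompact.prod isCompact_Icc).image_of_continuousOn hH₁c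
  let A₀ : Set DiffC := insert 1 (𝒦₁ ∪ 𝒦₁⁻¹)
  have hA₀f : A₀.Finite := (h𝒦₁f.union h𝒦₁f.inv).insert 1
  have h1A : (1 : DiffC) ∈ A₀ := Set.mem_insert _ _
  let M : ℕ := 4 * L.length + 4
  let C : Set DiffC := A₀ ^ M
  have hCf : C.Finite := by
    have : ∀ m : ℕ, (A₀ ^ m).Finite := by
      intro m
      induction m with
      | zero => rw [pow_zero]; exact Set.finite_one
      | succ m ih => rw [pow_succ]; exact ih.mul hA₀f
    exact this M
  let 𝒦₂ : Set DiffC := C * Im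
  have h𝒦₂c : IsCompact 𝒦₂ := hCf.isCompact.mul hImc
  have hA₀d : A₀ ⊆ discSub R₂ := by
    rintro g (rfl | hg | hg)
    · exact (discSub R₂).one_mem
    · exact discSub_mono hR₁₂ (h𝒦₁ hg)
    · have : g⁻¹ ∈ discSub R₂ := discSub_mono hR₁₂ (h𝒦₁ hg)
      simpa using (discSub R₂).inv_mem this
  have hpowd : ∀ m : ℕ, A₀ ^ m ⊆ discSub R₂ := by
    intro m
    induction m with
    | zero =>
      intro g hg
      rw [pow_zero, Set.mem_one] at hg
      rw [hg]; exact (discSub R₂).one_mem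
    | succ m ih =>
      intro g hg
      rw [pow_succ] at hg
      obtain ⟨a, ha, b, hb, rfl⟩ := hg
      exact (discSub R₂).mul_mem (ih ha) (hA₀d hb)
  have h𝒦₂ : 𝒦₂ ⊆ discSub R₂ := by
    rintro g ⟨c, hcC, i, ⟨q, hq, rfl⟩, rfl⟩
    exact (discSub R₂).mul_mem (hpowd M hcC) (hH₁d q.1 hq.1 q.2 hq.2)
  obtain ⟨R₃, H₂, hR₂₃, hH₂c, hH₂e, hH₂d, hH₂1⟩ := exists_contr h𝒦₂c h𝒦₂
  obtain ⟨r, ε, hε, s, hs1, hs2⟩ := hloc R₃
  -- the local homomorphism
  let V : Set DiffC := {g | Small R₃ r ε g}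
  have hV : V ∈ NF R₃ := small_mem R₃ r hε
  let sb : DiffC → E ⧸ K₀ := fun g => QuotientGroup.mk (s g)
  have hsb : ∀ g ∈ V, ∀ h ∈ V, g * h ∈ V → sb (g * h) = sb g * sb h := by
    intro g hg h hh hgh
    have h1 := hs2 g h hg hh hgh
    have hk : s g * s h * (s (g * h))⁻¹ ∈ p.ker := by
      rw [MonoidHom.mem_ker, map_mul, map_inv, map_mul, hs1, hs1, hs1]; group
    have h2 : s g * s h * (s (g * h))⁻¹ ∈ K₀ := h1
    have h3 : (QuotientGroup.mk (s g * s h * (s (g * h))⁻¹) : E ⧸ K₀) = 1 :=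
      (QuotientGroup.eq_one_iff _).mpr h2
    rw [QuotientGroup.mk_mul, QuotientGroup.mk_inv, QuotientGroup.mk_mul] at h3
    exact (mul_inv_eq_one.mp h3).symm
  have h1V : (1 : DiffC) ∈ V := mem_of_mem_nhdsWithin (discSub R₃).one_mem hV
  have hsb1 : sb 1 = 1 := by
    have h := hsb 1 h1V 1 h1V (by rwa [one_mul])
    rw [one_mul] at h
    exact (mul_eq_left.mp h.symm)
  let pb : E ⧸ K₀ →* DiffC := QuotientGroup.lift K₀ p (fun x hx => hK₀ hx)
  have hpb : ∀ x : E, pb (QuotientGroup.mk x) = p x := fun x => rfl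
  have hpsb : ∀ g, pb (sb g) = g := fun g => hs1 g
  have hpbc : pb.ker ≤ Subgroup.center (E ⧸ K₀) := by
    intro x hx
    obtain ⟨x, rfl⟩ := QuotientGroup.mk_surjective x
    have hx' : x ∈ p.ker := by
      rw [MonoidHom.mem_ker, ← hpb]; exact hx
    rw [Subgroup.mem_center_iff]
    intro y
    obtain ⟨y, rfl⟩ := QuotientGroup.mk_surjective y
    rw [← QuotientGroup.mk_mul, ← QuotientGroup.mk_mul, Subgroup.mem_center_iff.mp (hc hx') y]
  -- uniform continuity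
  obtain ⟨U, hU, η, hη, hUη⟩ := unif_cont h𝒦₂c hH₂c hH₂d hV
  have h1U : (1 : DiffC) ∈ U := mem_of_mem_nhds hU
  obtain ⟨N, hN⟩ := exists_nat_gt (1 / η)
  have hN0 : (0 : ℝ) < N := lt_trans (by positivity) hN
  have hNη : 1 / (N : ℝ) < η := by
    rw [div_lt_iff₀ hN0]; rw [div_lt_iff₀ hη] at hN; linarith
  have hgrid : ∀ {N : ℕ}, (0 : ℝ) < N → ∀ j ≤ N, ((j : ℝ) / N) ∈ Icc (0 : ℝ) 1 := by
    intro N hN0 j hj
    refine ⟨by positivity, ?_⟩
    rw [div_le_one hN0]; exact_mod_cast hj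
  -- the lift at the end of the path of `g`
  let TT : DiffC → E ⧸ K₀ := fun g =>
    ((List.range N).map fun j : ℕ => sb ((H₂ g ((j : ℝ) / N))⁻¹ * H₂ g (((j + 1 : ℕ) : ℝ) / N))).prod
  have hstep : ∀ j : ℕ, |((j : ℝ) / N) - (((j + 1 : ℕ) : ℝ) / N)| < η := by
    intro j
    have : ((j : ℝ) / N) - (((j + 1 : ℕ) : ℝ) / N) = -(1 / N) := by
      push_cast; field_simp; ring
    rw [this, abs_neg, abs_of_pos (by positivity)]
    exact hNη
  have hTT : ∀ g ∈ 𝒦₂, ∀ g' ∈ 𝒦₂, g⁻¹ * g' ∈ U → TT g' = TT g * sb (g⁻¹ * g') := by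
    intro g hg g' hg' hgg
    have h0 : (0 : ℝ) ∈ Icc (0 : ℝ) 1 := ⟨le_rfl, zero_le_one⟩
    have e := strip hsb (fun j : ℕ => H₂ g ((j : ℝ) / N)) (fun j : ℕ => H₂ g' ((j : ℝ) / N)) N
      (fun j hj => hUη g hg g hg _ (hgrid hN0 j hj.le) _ (hgrid hN0 (j + 1) hj)
        (by rwa [inv_mul_cancel]) (hstep j))
      (fun j hj => hUη g' hg' g' hg' _ (hgrid hN0 j hj.le) _ (hgrid hN0 (j + 1) hj)
        (by rwa [inv_mul_cancel]) (hstep j))
      (fun j hj => hUη g hg g' hg' _ (hgrid hN0 j hj) _ (hgrid hN0 j hj) hgg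
        (by rw [sub_self, abs_zero]; exact hη))
      (fun j hj => hUη g hg g' hg' _ (hgrid hN0 j hj.le) _ (hgrid hN0 (j + 1) hj) hgg (hstep j))
    have e0 : ((0 : ℕ) : ℝ) / N = 0 := by simp
    have eN : ((N : ℕ) : ℝ) / N = 1 := div_self hN0.ne'
    simp only [e0, eN, (hH₂e g hg).1, (hH₂e g hg).2, (hH₂e g' hg').1, (hH₂e g' hg').2, inv_one,
      one_mul, hsb1] at e
    exact e
  have hTT1 : TT 1 = 1 := by
    change ((List.range N).map fun j : ℕ =>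
      sb ((H₂ 1 ((j : ℝ) / N))⁻¹ * H₂ 1 (((j + 1 : ℕ) : ℝ) / N))).prod = 1
    refine List.prod_eq_one fun x hx => ?_
    rw [List.mem_map] at hx
    obtain ⟨j, hj, rfl⟩ := hx
    rw [List.mem_range] at hj
    rw [hH₂1 _ (hgrid hN0 j hj.le), hH₂1 _ (hgrid hN0 (j + 1) hj), inv_one, one_mul, hsb1]
  -- the lifts of the letters
  obtain ⟨U₁, hU₁, η₁, hη₁, hUη₁⟩ := unif_cont h𝒦₁f.isCompact hH₁c hH₁d (V := U)
    (mem_nhdsWithin_of_mem_nhds hU)
  obtain ⟨N₁, hN₁⟩ := exists_nat_gt (1 / η₁)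
  have hN₁0 : (0 : ℝ) < N₁ := lt_trans (by positivity) hN₁
  have hNη₁ : 1 / (N₁ : ℝ) < η₁ := by
    rw [div_lt_iff₀ hN₁0]; rw [div_lt_iff₀ hη₁] at hN₁; linarith
  have hstep₁ : ∀ j : ℕ, |((j : ℝ) / N₁) - (((j + 1 : ℕ) : ℝ) / N₁)| < η₁ := by
    intro j
    have : ((j : ℝ) / N₁) - (((j + 1 : ℕ) : ℝ) / N₁) = -(1 / N₁) := by
      push_cast; field_simp; ring
    rw [this, abs_neg, abs_of_pos (by positivity)]
    exact hNη₁
  let hat : DiffC → ℕ → E ⧸ K₀ := fun g m =>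
    ((List.range m).map fun j : ℕ => sb ((H₁ g ((j : ℝ) / N₁))⁻¹ * H₁ g (((j + 1 : ℕ) : ℝ) / N₁))).prod
  have hhat_succ : ∀ g m, hat g (m + 1) = hat g m *
      sb ((H₁ g ((m : ℝ) / N₁))⁻¹ * H₁ g (((m + 1 : ℕ) : ℝ) / N₁)) := by
    intro g m
    simp only [hat, List.range_succ, List.map_append, List.prod_append, List.map_cons, List.map_nil,
      List.prod_cons, List.prod_nil, mul_one]
  have hhat_p : ∀ g ∈ 𝒦₁, ∀ m ≤ N₁, pb (hat g m) = H₁ g ((m : ℝ) / N₁) := by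
    intro g hg m
    induction m with
    | zero =>
      intro _
      simp only [hat, List.range_zero, List.map_nil, List.prod_nil, map_one, Nat.cast_zero,
        zero_div, (hH₁e g hg).1]
    | succ m ih =>
      intro hm
      rw [hhat_succ, map_mul, ih (by omega), hpsb]; group
  have hhat_pN : ∀ g ∈ 𝒦₁, pb (hat g N₁) = g := by
    intro g hg
    rw [hhat_p g hg N₁ le_rfl, div_self hN₁0.ne', (hH₁e g hg).2]
  have hmove : ∀ g ∈ 𝒦₁, ∀ c ∈ C, TT (c * g) = TT c * hat g N₁ := by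
    intro g hg c hcC
    have h1 : ∀ m ≤ N₁, TT (c * H₁ g ((m : ℝ) / N₁)) = TT c * hat g m := by
      intro m
      induction m with
      | zero =>
        intro _
        simp only [Nat.cast_zero, zero_div, (hH₁e g hg).1, mul_one, hat, List.range_zero,
          List.map_nil, List.prod_nil]
      | succ m ih =>
        intro hm
        have hm' := hgrid hN₁0 m (by omega)
        have hm'' := hgrid hN₁0 (m + 1) hm
        have e : (c * H₁ g ((m : ℝ) / N₁))⁻¹ * (c * H₁ g (((m + 1 : ℕ) : ℝ) / N₁)) =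
            (H₁ g ((m : ℝ) / N₁))⁻¹ * H₁ g (((m + 1 : ℕ) : ℝ) / N₁) := by group
        rw [hTT (c * H₁ g ((m : ℝ) / N₁)) ⟨c, hcC, _, ⟨(g, _), ⟨hg, hm'⟩, rfl⟩, rfl⟩
          (c * H₁ g (((m + 1 : ℕ) : ℝ) / N₁)) ⟨c, hcC, _, ⟨(g, _), ⟨hg, hm''⟩, rfl⟩, rfl⟩ ?_, e,
          ih (by omega), hhat_succ, mul_assoc]
        rw [e]
        exact hUη₁ g hg g hg _ hm' _ hm'' (by rw [inv_mul_cancel]; exact mem_of_mem_nhds hU₁)
          (hstep₁ m)
    have h2 := h1 N₁ le_rfl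
    rwa [div_self hN₁0.ne', (hH₁e g hg).2] at h2
  -- products of commutators
  have hpow : ∀ {k m : ℕ}, k ≤ m → A₀ ^ k ⊆ A₀ ^ m := fun {k m} hkm =>
    Set.pow_subset_pow_right h1A hkm
  have hcomm : ∀ g ∈ 𝒦₁, ∀ h ∈ 𝒦₁, ∀ k : ℕ, k + 4 ≤ M → ∀ c ∈ A₀ ^ k,
      TT (c * ⁅g, h⁆) = TT c * ⁅hat g N₁, hat h N₁⁆ ∧ c * ⁅g, h⁆ ∈ A₀ ^ (k + 4) := by
    intro g hg h hh k hk c hck
    have m1 : c * g ∈ A₀ ^ (k + 1) := by
      rw [pow_succ]; exact Set.mul_mem_mul hck (Or.inr (Or.inl hg))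
    have m2 : c * g * h ∈ A₀ ^ (k + 2) := by
      rw [pow_succ]; exact Set.mul_mem_mul m1 (Or.inr (Or.inl hh))
    have m3 : c * g * h * g⁻¹ ∈ A₀ ^ (k + 3) := by
      rw [pow_succ]; exact Set.mul_mem_mul m2 (Or.inr (Or.inr (Set.inv_mem_inv.mpr hg)))
    have m4 : c * g * h * g⁻¹ * h⁻¹ ∈ A₀ ^ (k + 4) := by
      rw [pow_succ]; exact Set.mul_mem_mul m3 (Or.inr (Or.inr (Set.inv_mem_inv.mpr hh)))
    have e4 : c * ⁅g, h⁆ = c * g * h * g⁻¹ * h⁻¹ := by rw [commutatorElement_def]; group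
    have t1 := hmove g hg c (hpow (by omega) hck)
    have t2 := hmove h hh (c * g) (hpow (by omega) m1)
    have t3 := hmove g hg (c * g * h * g⁻¹) (hpow (by omega) m3)
    have t4 := hmove h hh (c * g * h * g⁻¹ * h⁻¹) (hpow (by omega) m4)
    rw [inv_mul_cancel_right] at t3 t4
    refine ⟨?_, by rw [e4]; exact m4⟩
    rw [e4]
    have t3' : TT (c * g * h * g⁻¹) = TT (c * g * h) * (hat g N₁)⁻¹ := by
      rw [t3, mul_inv_cancel_right]
    have t4' : TT (c * g * h * g⁻¹ * h⁻¹) = TT (c * g * h * g⁻¹) * (hat h N₁)⁻¹ := by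
      rw [t4, mul_inv_cancel_right]
    rw [t4', t3', t2, t1, commutatorElement_def]
    group
  have hmem1 : ∀ q ∈ L, p q.1 ∈ 𝒦₁ := fun q hq =>
    List.mem_append_left _ (List.mem_map_of_mem hq)
  have hmem2 : ∀ q ∈ L, p q.2 ∈ 𝒦₁ := fun q hq =>
    List.mem_append_right _ (List.mem_map_of_mem hq)
  have hlist : ∀ L' : List (E × E), (∀ q ∈ L', q ∈ L) → ∀ k : ℕ, k + 4 * L'.length ≤ M →
      ∀ c ∈ A₀ ^ k, TT (c * lw (L'.map fun q => (p q.1, p q.2))) =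
        TT c * (QuotientGroup.mk (lw L') : E ⧸ K₀) := by
    intro L'
    induction L' with
    | nil =>
      intro _ k _ c _
      simp [lw]
    | cons q L' ih =>
      intro hL' k hk c hck
      have hq := hL' q List.mem_cons_self
      rw [List.length_cons] at hk
      obtain ⟨h1, h2⟩ := hcomm (p q.1) (hmem1 q hq) (p q.2) (hmem2 q hq) k (by omega) c hck
      have h3 := ih (fun q' hq' => hL' q' (List.mem_cons_of_mem _ hq')) (k + 4) (by omega) _ h2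
      have e1 : lw ((q :: L').map fun q => (p q.1, p q.2)) =
          ⁅p q.1, p q.2⁆ * lw (L'.map fun q => (p q.1, p q.2)) := by simp [lw]
      have e2 : lw (q :: L') = ⁅q.1, q.2⁆ * lw L' := by simp [lw]
      have e4 : (QuotientGroup.mk ⁅q.1, q.2⁆ : E ⧸ K₀) =
          ⁅(QuotientGroup.mk q.1 : E ⧸ K₀), QuotientGroup.mk q.2⁆ := by
        simp only [commutatorElement_def, QuotientGroup.mk_mul, QuotientGroup.mk_inv]
      have e5 : (⁅(QuotientGroup.mk q.1 : E ⧸ K₀), QuotientGroup.mk q.2⁆ :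
          E ⧸ K₀) = ⁅hat (p q.1) N₁, hat (p q.2) N₁⁆ :=
        commutator_eq_of pb hpbc (by rw [hpb, hhat_pN _ (hmem1 q hq)])
          (by rw [hpb, hhat_pN _ (hmem2 q hq)])
      rw [e1, ← mul_assoc, h3, h1, e2, QuotientGroup.mk_mul, e4, e5, mul_assoc]
  have hfin := hlist L (fun q hq => hq) 0 (by omega) 1 (by rw [pow_zero]; exact Set.mem_one.mpr rfl)
  have h8 : lw (L.map fun q => (p q.1, p q.2)) = 1 := by
    rw [← map_lw]
    have : lw L = z := hL.symm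
    rw [this]; exact hz
  rw [h8, one_mul, hTT1, one_mul] at hfin
  have h10 : lw L ∈ K₀ := (QuotientGroup.eq_one_iff _).mp hfin.symm
  rw [hL]; exact h10

end Pool.Agent.H75G
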