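import Pool.Agent.H75B.Nhds

set_option autoImplicit false

open scoped ContDiff
open Set Filter Topology

namespace Pool.Agent.H75G

open Pool.Agent.H45F Pool.Agent.H75S Pool.Agent.H75B

/-- all derivatives of order `≤ r` of a smooth function with compact support are bounded -/
theorem exists_iter_bound {v : ℂ → ℂ} (hv : ContDiff ℝ ∞ v) (hc : HasCompactSupport v) (r : ℕ) :
    ∃ C : ℝ, 0 ≤ C ∧ ∀ j ≤ r, ∀ z, ‖iteratedFDeriv ℝ j v z‖ ≤ C := by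
  have h1 : ∀ j : ℕ, ∃ C : ℝ, ∀ z, ‖iteratedFDeriv ℝ j v z‖ ≤ C := by
    intro j
    have hj : ((j : ℕ) : WithTop ℕ∞) ≤ ∞ := by exact_mod_cast le_top
    exact (hc.iteratedFDeriv (𝕜 := ℝ) j).exists_bound_of_continuous
      (hv.continuous_iteratedFDeriv hj)
  choose C hC using h1
  have h0 : ∀ j, 0 ≤ C j := fun j => (norm_nonneg _).trans (hC j 0)
  refine ⟨∑ j ∈ Finset.range (r + 1), C j, Finset.sum_nonneg fun j _ => h0 j, ?_⟩
  intro j hj z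
  refine (hC j z).trans ?_
  exact Finset.single_le_sum (f := C) (fun i _ => h0 i) (Finset.mem_range.2 (by omega))

/-
A3. t z = z + δ χ z, χ : ContDiffBump (0 : ℂ) ⟨1/2, 3/4⟩ (0 ≤ χ ≤ 1), δ small: exists_small (H45F.Genus) for the field χ z • 1;
the derivatives of order ≤ r of χ • 1 are bounded (compact support).
-/
theorem exists_tr (m r : ℕ) {ε : ℝ} (hε : 0 < ε) :
    ∃ (δ : ℝ) (t : DiffC), 0 < δ ∧ ((m : ℝ) + 2) * δ ≤ 1 / 4 ∧ Small 1 r ε t ∧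
      (∀ z : ℂ, ‖z‖ ≤ 1 / 2 → (t : Equiv.Perm ℂ) z = z + δ) ∧
      ∀ z : ℂ, z.re ≤ ((t : Equiv.Perm ℂ) z).re := by
  let χ : ContDiffBump (0 : ℂ) := ⟨1 / 2, 3 / 4, by norm_num, by norm_num⟩
  have hin : χ.rIn = 1 / 2 := rfl
  have hout : χ.rOut = 3 / 4 := rfl
  obtain ⟨v, hvz⟩ : ∃ v : ℂ → ℂ, ∀ z, v z = (χ z : ℝ) • (1 : ℂ) := ⟨_, fun _ => rfl⟩
  have hve : v = fun z => (χ z : ℝ) • (1 : ℂ) := funext hvz
  have hv : ContDiff ℝ ∞ v := by
    rw [hve]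
    exact χ.contDiff.smul contDiff_const
  have hvR : ∀ z : ℂ, 1 ≤ ‖z‖ → v z = 0 := by
    intro z hz
    rw [hvz, χ.zero_of_le_dist (by rw [hout, dist_zero_right]; linarith), zero_smul]
  have hcs : HasCompactSupport v := by
    refine HasCompactSupport.intro (isCompact_closedBall (0 : ℂ) 1) (fun z hz => hvR z ?_)
    have : ¬ ‖z‖ ≤ 1 := by simpa using hz
    exact le_of_lt (not_le.mp this)
  obtain ⟨δ₀, hδ₀, hδ⟩ := exists_small v hv 1 hvR
  obtain ⟨C, hC0, hC⟩ := exists_iter_bound hv hcs r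
  obtain ⟨δ, hδd⟩ : ∃ δ, δ = min δ₀ (min (ε / (C + 1)) (1 / (4 * ((m : ℝ) + 2)))) := ⟨_, rfl⟩
  have hδ1 : δ ≤ δ₀ := by rw [hδd]; exact min_le_left _ _
  have hδ2 : δ ≤ ε / (C + 1) := by
    rw [hδd]; exact (min_le_right _ _).trans (min_le_left _ _)
  have hδ3 : δ ≤ 1 / (4 * ((m : ℝ) + 2)) := by
    rw [hδd]; exact (min_le_right _ _).trans (min_le_right _ _)
  have hδ0 : 0 < δ := by
    rw [hδd]
    exact lt_min hδ₀ (lt_min (by positivity) (by positivity))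
  obtain ⟨f, hf, hfz⟩ := hδ δ (by rw [abs_of_pos hδ0]; exact hδ1)
  refine ⟨δ, ⟨f, hf⟩, hδ0, ?_, ⟨?_, ?_⟩, ?_, ?_⟩
  · have hm : (0 : ℝ) < (m : ℝ) + 2 := by positivity
    calc ((m : ℝ) + 2) * δ ≤ ((m : ℝ) + 2) * (1 / (4 * ((m : ℝ) + 2))) :=
          mul_le_mul_of_nonneg_left hδ3 hm.le
      _ = 1 / 4 := by field_simp
  · intro z hz
    show f z = z
    rw [hfz, hvR z hz, smul_zero, add_zero]
  · intro j hj z
    have h1 : (fun w => (f w) - w) = δ • v := by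
      funext w
      rw [hfz]
      show w + δ • v w - w = δ • v w
      rw [add_sub_cancel_left]
    show ‖iteratedFDeriv ℝ j (fun w => (f w) - w) z‖ ≤ ε
    have hjj : ((j : ℕ) : WithTop ℕ∞) ≤ ∞ := by exact_mod_cast le_top
    rw [h1, iteratedFDeriv_const_smul_apply (hv.of_le hjj).contDiffAt, norm_smul,
      Real.norm_eq_abs, abs_of_pos hδ0]
    have h2 : δ * (C + 1) ≤ ε := by
      rw [le_div_iff₀ (by positivity)] at hδ2
      exact hδ2
    have h3 : δ * ‖iteratedFDeriv ℝ j v z‖ ≤ δ * C := mul_le_mul_of_nonneg_left (hC j hj z) hδ0.le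
    linarith
  · intro z hz
    show f z = z + δ
    have h1 : χ z = 1 := χ.one_of_mem_closedBall (by
      rw [Metric.mem_closedBall, dist_zero_right, hin]
      exact hz)
    rw [hfz, hvz, h1, one_smul, Complex.real_smul, mul_one]
  · intro z
    show z.re ≤ (f z).re
    rw [hfz, hvz]
    have h1 : (0 : ℝ) ≤ χ z := χ.nonneg
    have h2 : (δ • ((χ z : ℝ) • (1 : ℂ))).re = δ * χ z := by simp
    rw [Complex.add_re, h2]
    have : 0 ≤ δ * χ z := mul_nonneg hδ0.le h1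
    linarith

/-- powers of `t` -/
theorem tr_pow {δ : ℝ} (hδ : 0 < δ) {m : ℕ} (hm : ((m : ℝ) + 2) * δ ≤ 1 / 4) {t : DiffC}
    (ht : ∀ z : ℂ, ‖z‖ ≤ 1 / 2 → (t : Equiv.Perm ℂ) z = z + δ) (i : ℕ) (hi : i ≤ m + 1) (z : ℂ)
    (hz : ‖z‖ ≤ δ / 4) : ((t ^ i : DiffC) : Equiv.Perm ℂ) z = z + (i * δ : ℝ) := by
  induction i with
  | zero =>
    rw [pow_zero, Subgroup.coe_one, Equiv.Perm.one_apply]
    simp
  | succ i ih =>
    have h1 := ih (by omega)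
    have h2 : ‖z + ((i * δ : ℝ) : ℂ)‖ ≤ 1 / 2 := by
      have h3 : (i : ℝ) ≤ m := by exact_mod_cast Nat.le_of_succ_le_succ hi
      have h4 : ‖((i * δ : ℝ) : ℂ)‖ = i * δ := by
        rw [Complex.norm_real, Real.norm_eq_abs, abs_of_nonneg (by positivity)]
      have h5 := norm_add_le z ((i * δ : ℝ) : ℂ)
      rw [h4] at h5
      have h6 : (i : ℝ) * δ ≤ m * δ := mul_le_mul_of_nonneg_right h3 hδ.le
      nlinarith
    rw [pow_succ', Subgroup.coe_mul, Equiv.Perm.mul_apply, h1, ht _ h2]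
    push_cast
    ring

/-- the disc of radius `δ / 3` is wandering -/
theorem tr_wander {δ : ℝ} (hδ : 0 < δ) {m : ℕ} (hm : ((m : ℝ) + 2) * δ ≤ 1 / 4) {t : DiffC}
    (ht : ∀ z : ℂ, ‖z‖ ≤ 1 / 2 → (t : Equiv.Perm ℂ) z = z + δ)
    (hre : ∀ z : ℂ, z.re ≤ ((t : Equiv.Perm ℂ) z).re) :
    ∀ n : ℕ, 1 ≤ n → ∀ z ∈ Metric.ball (0 : ℂ) (δ / 3),
      ((t ^ n : DiffC) : Equiv.Perm ℂ) z ∉ Metric.ball (0 : ℂ) (δ / 3) := by
  have hpow : ∀ (n : ℕ) (z : ℂ), z.re ≤ (((t ^ n : DiffC) : Equiv.Perm ℂ) z).re := by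
    intro n
    induction n with
    | zero =>
      intro z
      rw [pow_zero, Subgroup.coe_one, Equiv.Perm.one_apply]
    | succ n ih =>
      intro z
      rw [pow_succ', Subgroup.coe_mul, Equiv.Perm.mul_apply]
      exact (ih z).trans (hre _)
  intro n hn z hz hz'
  obtain ⟨k, rfl⟩ : ∃ k, n = k + 1 := ⟨n - 1, by omega⟩
  rw [Metric.mem_ball, dist_zero_right] at hz hz'
  have hm0 : (0 : ℝ) ≤ m := Nat.cast_nonneg m
  have h1 : ‖z‖ ≤ 1 / 2 := by nlinarith [mul_nonneg hm0 hδ.le]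
  rw [pow_succ, Subgroup.coe_mul, Equiv.Perm.mul_apply, ht z h1] at hz'
  have h2 := hpow k (z + δ)
  have h3 := (Complex.abs_re_le_norm (((t ^ k : DiffC) : Equiv.Perm ℂ) (z + δ))).trans_lt hz'
  have h4 := (Complex.abs_re_le_norm z).trans_lt hz
  rw [Complex.add_re, Complex.ofReal_re] at h2
  have h5 := (abs_lt.1 h3).2
  have h6 := (abs_lt.1 h4).1
  linarith

end Pool.Agent.H75G
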