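import Pool.Agent.H75G.Bd
import Pool.Agent.H75G.Tr

set_option autoImplicit false

open scoped ContDiff commutatorElement
open Set Filter Topology

namespace Pool.Agent.H75G

open Pool.Agent.H45F Pool.Agent.H75S Pool.Agent.H75B

/-- `a₀ (t a₁ t⁻¹) (t² a₂ t⁻²) ...` -/
def trl {H : Type*} [Group H] (t : H) : List H → H
  | [] => 1
  | a :: l => a * (t * trl t l * t⁻¹)

/-- the products of the tails of a list of commutators: `[lw L, lw L.tail, ...]` (same length) -/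
def tls {H : Type*} [Group H] : List (H × H) → List H
  | [] => []
  | q :: L => lw (q :: L) :: tls L

theorem map_trl {H H' : Type*} [Group H] [Group H'] (f : H →* H') (t : H) (l : List H) :
    f (trl t l) = trl (f t) (l.map f) := by
  induction l with
  | nil => simp [trl]
  | cons a l ih => simp [trl, ih]

theorem length_tls {H : Type*} [Group H] (L : List (H × H)) : (tls L).length = L.length := by
  induction L with
  | nil => rfl
  | cons q L ih => simp [tls, ih]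

theorem map_tls {H H' : Type*} [Group H] [Group H'] (f : H →* H') (L : List (H × H)) :
    (tls L).map f = tls (L.map fun q => (f q.1, f q.2)) := by
  induction L with
  | nil => rfl
  | cons q L ih => simp only [tls, List.map_cons, ih, map_lw]

theorem two_comm_aux {E : Type*} [Group E] (S H : Subgroup E) (t : E) (hSH : S ≤ H)
    (htH : ∀ h ∈ H, t * h * t⁻¹ ∈ H)
    (hcomm : ∀ s ∈ S, ∀ h ∈ H, s * (t * h * t⁻¹) = (t * h * t⁻¹) * s)
    (L : List (E × E)) (hL : ∀ q ∈ L, q.1 ∈ S ∧ q.2 ∈ S) :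
    lw L ∈ S ∧ trl t (L.map Prod.fst) ∈ H ∧ trl t (L.map Prod.snd) ∈ H ∧ trl t (tls L) ∈ H ∧
      trl t (tls L).tail ∈ H ∧
      ⁅trl t (L.map Prod.fst), trl t (L.map Prod.snd)⁆ = trl t (tls L) * (trl t (tls L).tail)⁻¹ ∧
      trl t (tls L) = lw L * (t * trl t (tls L).tail * t⁻¹) := by
  induction L with
  | nil => simp [trl, tls, lw]
  | cons q L ih =>
    obtain ⟨hP, hA, hB, hF, hF', h1, h2⟩ := ih (fun q hq => hL q (List.mem_cons_of_mem _ hq))
    obtain ⟨ha, hb⟩ := hL q List.mem_cons_self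
    have hab : ⁅q.1, q.2⁆ ∈ S := by
      rw [commutatorElement_def]
      exact S.mul_mem (S.mul_mem (S.mul_mem ha hb) (S.inv_mem ha)) (S.inv_mem hb)
    have hprod : lw (q :: L) = ⁅q.1, q.2⁆ * lw L := by simp [lw]
    have hPS : lw (q :: L) ∈ S := by rw [hprod]; exact S.mul_mem hab hP
    simp only [List.map_cons, tls, trl, List.tail_cons]
    refine ⟨hPS, H.mul_mem (hSH ha) (htH _ hA), H.mul_mem (hSH hb) (htH _ hB),
      H.mul_mem (hSH hPS) (htH _ hF), hF, ?_, trivial⟩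
    have e1 : ⁅q.1 * (t * trl t (L.map Prod.fst) * t⁻¹), q.2 * (t * trl t (L.map Prod.snd) * t⁻¹)⁆ =
        ⁅q.1, q.2⁆ * (t * ⁅trl t (L.map Prod.fst), trl t (L.map Prod.snd)⁆ * t⁻¹) := by
      rw [comm_prod_aux q.1 q.2 _ _ (hcomm q.2 hb _ hA) (hcomm q.1 ha _ hB)
        (hcomm q.1 ha _ hA) (hcomm q.2 hb _ hB)]
      congr 1
      rw [commutatorElement_def, commutatorElement_def]; group
    rw [e1, h1, hprod]
    have c5 : lw L * (t * (trl t (tls L) * (trl t (tls L).tail)⁻¹) * t⁻¹) =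
        (t * (trl t (tls L) * (trl t (tls L).tail)⁻¹) * t⁻¹) * lw L :=
      hcomm _ hP _ (H.mul_mem hF (H.inv_mem hF'))
    calc ⁅q.1, q.2⁆ * (t * (trl t (tls L) * (trl t (tls L).tail)⁻¹) * t⁻¹)
        = ⁅q.1, q.2⁆ * ((t * (trl t (tls L) * (trl t (tls L).tail)⁻¹) * t⁻¹) * lw L) * (lw L)⁻¹ := by
          group
      _ = ⁅q.1, q.2⁆ * (lw L * (t * (trl t (tls L) * (trl t (tls L).tail)⁻¹) * t⁻¹)) * (lw L)⁻¹ := by
          rw [c5]
      _ = ⁅q.1, q.2⁆ * lw L * (t * trl t (tls L) * t⁻¹) *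
          (lw L * (t * trl t (tls L).tail * t⁻¹))⁻¹ := by group
      _ = ⁅q.1, q.2⁆ * lw L * (t * trl t (tls L) * t⁻¹) * (trl t (tls L))⁻¹ := by rw [← h2]

/-
A4. Explicit form of H45F.two_commutators (H45F/Genus.lean): there A = trl t (L.map fst), B = trl t (L.map snd),
F = trl t (tls L), F' = trl t (tls L).tail.
-/
theorem two_comm {E : Type*} [Group E] (S H : Subgroup E) (t : E) (hSH : S ≤ H)
    (htH : ∀ h ∈ H, t * h * t⁻¹ ∈ H)
    (hcomm : ∀ s ∈ S, ∀ h ∈ H, s * (t * h * t⁻¹) = (t * h * t⁻¹) * s)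
    (L : List (E × E)) (hL : ∀ q ∈ L, q.1 ∈ S ∧ q.2 ∈ S) :
    lw L = ⁅trl t (L.map Prod.fst), trl t (L.map Prod.snd)⁆ * ⁅trl t (tls L).tail, t⁆ := by
  obtain ⟨-, -, -, -, -, h1, h2⟩ := two_comm_aux S H t hSH htH hcomm L hL
  rw [h1, h2, commutatorElement_def]
  group

/-
A5. Induction on v with i: t^i (a * (t T t⁻¹)) t^(-i) = (t^i a t^(-i)) * (t^(i+1) T t^(-(i+1))); the first factor is supported in the
closed ball of centre iδ and radius δ/4 (conj_simi with ρ = 1, tr_pow), the second one in the closed set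
{z | (i+1)δ - δ/4 ≤ z.re} ∩ closedBall 0 (1/2); bd_mul_disj.
-/
theorem trl_aux {δ : ℝ} (hδ : 0 < δ) {m : ℕ} (hm : ((m : ℝ) + 2) * δ ≤ 1 / 4) {t : DiffC}
    (ht : ∀ z : ℂ, ‖z‖ ≤ 1 / 2 → (t : Equiv.Perm ℂ) z = z + δ) {r : ℕ} {ε : ℝ} (hε : 0 ≤ ε)
    (v : List DiffC) : ∀ i : ℕ, i + v.length ≤ m + 1 → (∀ g ∈ v, Small (δ / 4) r ε g) →
    Bd r ε (t ^ i * trl t v * (t ^ i)⁻¹) ∧
      ∀ z : ℂ, ¬ (i * δ - δ / 4 ≤ z.re ∧ ‖z‖ ≤ 1 / 2) →
        ((t ^ i * trl t v * (t ^ i)⁻¹ : DiffC) : Equiv.Perm ℂ) z = z := by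
  induction v with
  | nil =>
    intro i _ _
    have h1 : t ^ i * trl t [] * (t ^ i)⁻¹ = 1 := by simp [trl]
    rw [h1]
    exact ⟨(Small.one (R := 1) (r := r) hε).2, fun z _ => rfl⟩
  | cons a l ih =>
    intro i hi hv
    rw [List.length_cons] at hi
    obtain ⟨hb2, hs2⟩ := ih (i + 1) (by omega) (fun g hg => hv g (List.mem_cons_of_mem _ hg))
    have ha : Small (δ / 4) r ε a := hv a List.mem_cons_self
    have him : (i : ℝ) ≤ m := by exact_mod_cast (by omega : i ≤ m)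
    obtain ⟨hs1, hb1⟩ := conj_simi (τ := t ^ i) (v := a) (c := ((i * δ : ℝ) : ℂ)) (ρ := 1)
      (s := δ / 4) one_pos
      (fun z hz => by
        rw [tr_pow hδ hm ht i (by omega) z hz, one_smul, add_comm])
      (small_iff.1 ha).1 (r := r) (ε := ε) (ε' := ε) (small_iff.1 ha).2
      (fun j _ => by simp)
    have h1 : t ^ i * trl t (a :: l) * (t ^ i)⁻¹ =
        (t ^ i * a * (t ^ i)⁻¹) * (t ^ (i + 1) * trl t l * (t ^ (i + 1))⁻¹) := by
      simp only [trl, pow_succ]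
      group
    rw [h1]
    have hre : ∀ z : ℂ, ‖z - ((i * δ : ℝ) : ℂ)‖ ≤ δ / 4 →
        i * δ - δ / 4 ≤ z.re ∧ z.re ≤ i * δ + δ / 4 ∧ ‖z‖ ≤ 1 / 2 := by
      intro z hz
      have h2 := (Complex.abs_re_le_norm (z - ((i * δ : ℝ) : ℂ))).trans hz
      rw [Complex.sub_re, Complex.ofReal_re, abs_le] at h2
      refine ⟨by linarith [h2.1], by linarith [h2.2], ?_⟩
      have h3 : ‖z‖ ≤ ‖z - ((i * δ : ℝ) : ℂ)‖ + ‖((i * δ : ℝ) : ℂ)‖ := by
        simpa using norm_add_le (z - ((i * δ : ℝ) : ℂ)) ((i * δ : ℝ) : ℂ)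
      have h4 : ‖((i * δ : ℝ) : ℂ)‖ = i * δ := by
        rw [Complex.norm_real, Real.norm_of_nonneg (by positivity)]
      have h5 : (i : ℝ) * δ ≤ m * δ := by gcongr
      nlinarith
    have hC1 : ∀ z : ℂ, z ∉ Metric.closedBall ((i * δ : ℝ) : ℂ) (δ / 4) →
        ((t ^ i * a * (t ^ i)⁻¹ : DiffC) : Equiv.Perm ℂ) z = z := by
      intro z hz
      rw [Metric.mem_closedBall, dist_eq_norm, not_le] at hz
      exact hs1 z (by linarith)
    have hC2 : ∀ z : ℂ, z ∉ {z : ℂ | (i + 1) * δ - δ / 4 ≤ z.re ∧ ‖z‖ ≤ 1 / 2} →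
        ((t ^ (i + 1) * trl t l * (t ^ (i + 1))⁻¹ : DiffC) : Equiv.Perm ℂ) z = z := by
      intro z hz
      apply hs2 z
      intro h
      apply hz
      rw [Nat.cast_add, Nat.cast_one] at h
      exact h
    refine ⟨bd_mul_disj (C₁ := Metric.closedBall ((i * δ : ℝ) : ℂ) (δ / 4))
      (C₂ := {z : ℂ | (i + 1) * δ - δ / 4 ≤ z.re ∧ ‖z‖ ≤ 1 / 2}) Metric.isClosed_closedBall ?_ ?_
      hC1 hC2 hb1 hb2, ?_⟩
    · exact (isClosed_le continuous_const Complex.continuous_re).inter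
        (isClosed_le continuous_norm continuous_const)
    · rw [Set.disjoint_left]
      rintro z hz ⟨hz1, -⟩
      rw [Metric.mem_closedBall, dist_eq_norm] at hz
      have := (hre z hz).2.1
      linarith
    · intro z hz
      have hz1 : z ∉ Metric.closedBall ((i * δ : ℝ) : ℂ) (δ / 4) := by
        intro h
        rw [Metric.mem_closedBall, dist_eq_norm] at h
        exact hz ⟨(hre z h).1, (hre z h).2.2⟩
      have hz2 : z ∉ {z : ℂ | (i + 1) * δ - δ / 4 ≤ z.re ∧ ‖z‖ ≤ 1 / 2} := by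
        rintro ⟨h3, h4⟩
        exact hz ⟨by linarith, h4⟩
      rw [Subgroup.coe_mul, Equiv.Perm.mul_apply, hC2 z hz2, hC1 z hz1]

theorem trl_small {δ : ℝ} (hδ : 0 < δ) {m : ℕ} (hm : ((m : ℝ) + 2) * δ ≤ 1 / 4) {t : DiffC}
    (ht : ∀ z : ℂ, ‖z‖ ≤ 1 / 2 → (t : Equiv.Perm ℂ) z = z + δ) {r : ℕ} {ε : ℝ} (hε : 0 ≤ ε)
    (v : List DiffC) (hlen : v.length ≤ m + 1) (hv : ∀ g ∈ v, Small (δ / 4) r ε g) :
    Small 1 r ε (trl t v : DiffC) := by
  obtain ⟨hb, hs⟩ := trl_aux hδ hm ht hε v 0 (by omega) hv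
  rw [pow_zero, one_mul, inv_one, mul_one] at hb hs
  refine small_iff.2 ⟨fun z hz => hs z ?_, hb⟩
  rintro ⟨-, h⟩
  linarith

end Pool.Agent.H75G
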