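import Pool.Agent.H75G.Trl
import Pool.Agent.H75G.Comm

set_option autoImplicit false

open scoped ContDiff commutatorElement
open Set Filter Topology

namespace Pool.Agent.H75G

open Pool.Agent.H45F Pool.Agent.H75S Pool.Agent.H75T Pool.Agent.H75B

/-- the classes of genus two with holonomy in `Small 1 r ε` -/
def GT {E : Type*} [Group E] (p : E →* DiffC) (r : ℕ) (ε : ℝ) : Set E :=
  {z | z ∈ p.ker ∧ ∃ A B F T : E, z = ⁅A, B⁆ * ⁅F, T⁆ ∧ Small 1 r ε (p A) ∧ Small 1 r ε (p B) ∧
    Small 1 r ε (p F) ∧ Small 1 r ε (p T)}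

theorem mem_tls {H : Type*} [Group H] (M : List (H × H)) (g : H) (hg : g ∈ tls M) :
    ∃ M' : List (H × H), M' <:+ M ∧ g = lw M' := by
  induction M with
  | nil => simp [tls] at hg
  | cons q M ih =>
    simp only [tls, List.mem_cons] at hg
    rcases hg with rfl | hg
    · exact ⟨q :: M, List.suffix_refl _, rfl⟩
    · obtain ⟨M', h1, h2⟩ := ih hg
      exact ⟨M', h1.trans (List.suffix_cons q M), h2⟩

/-- conjugating a list of pairs -/
theorem lw_conj {E : Type*} [Group E] (g : E) (L : List (E × E)) :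
    lw (L.map fun q => (g * q.1 * g⁻¹, g * q.2 * g⁻¹)) = g * lw L * g⁻¹ := by
  have h := map_lw (MulAut.conj g).toMonoidHom L
  simpa [MulAut.conj_apply] using h.symm

/-- conjugates by `t` -/
theorem conj_apply_eq {E : Type*} [Group E] (p : E →* DiffC) {t : DiffC} {t' : E}
    (ht' : p t' = t) (h : E) (z : ℂ) : ((p (t' * h * t'⁻¹) : DiffC) : Equiv.Perm ℂ) z =
      (t : Equiv.Perm ℂ) ((p h : Equiv.Perm ℂ) ((t : Equiv.Perm ℂ).symm z)) := by
  rw [map_mul, map_mul, map_inv, ht']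
  rfl

theorem pow_apply_succ (t : DiffC) (n : ℕ) (z : ℂ) :
    ((t : DiffC) : Equiv.Perm ℂ) (((t ^ n : DiffC) : Equiv.Perm ℂ) z) =
      ((t ^ (n + 1) : DiffC) : Equiv.Perm ℂ) z := by
  rw [pow_succ', Subgroup.coe_mul, Equiv.Perm.mul_apply]

/-
M3. exists_tr m r ε gives δ, t; comm_nhds m (δ/4) r ε gives r₁ ≥ r, ε₁ ≤ ε; small_scal R' (s := δ/4) r₁ ε₁ gives θ, ε'.  Lifts θ', t'.
Conjugate L by θ' (z = lw L is central, so lw of the conjugated list is z); letters in Small (δ/4) r₁ ε₁.  Then two_comm with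
S = suppSubgroup p U, H = fixSubgroup p V, U = ball 0 (δ/3), V = {z | ∃ n w, w ∈ U ∧ t^n w = z} exactly as in the proof of
H45F.genus_two (wandering: tr_wander), and trl_small for the three lists (map_trl, map_tls; the members of tls are products of
commutators of a tail of L, small by comm_nhds).
-/
theorem small_genus_two {E : Type*} [Group E] (p : E →* DiffC) (hp : Function.Surjective p)
    (hc : p.ker ≤ Subgroup.center E) (hE : commutator E = ⊤) (m : ℕ) (R' : ℝ) (r : ℕ) {ε : ℝ}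
    (hε : 0 < ε) :
    ∃ (r' : ℕ) (ε' : ℝ), 0 < ε' ∧ ∀ L : List (E × E), L.length ≤ m →
      (∀ q ∈ L, Small R' r' ε' (p q.1) ∧ Small R' r' ε' (p q.2)) → lw L ∈ p.ker →
      lw L ∈ GT p r ε := by
  obtain ⟨δ, t, hδ, hmδ, ht1, htr, hre⟩ := exists_tr m r hε
  obtain ⟨r₁, ε₁, hr₁, hε₁, hε₁', hcm⟩ := comm_nhds m (δ / 4) r hε
  obtain ⟨θ, ε', hε', hθ⟩ := small_scal R' (s := δ / 4) (by positivity) r₁ hε₁
  refine ⟨r₁, ε', hε', fun L hlen hL hker => ?_⟩
  obtain ⟨θ', hθ'⟩ := hp θ
  obtain ⟨t', ht'⟩ := hp t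
  have hW := tr_wander hδ hmδ htr hre
  set L' : List (E × E) := L.map fun q => (θ' * q.1 * θ'⁻¹, θ' * q.2 * θ'⁻¹) with hL'
  have hlw : lw L' = lw L := by
    rw [hL', lw_conj]
    have h := Subgroup.mem_center_iff.mp (hc hker) θ'
    rw [h, mul_inv_cancel_right]
  have hconj : ∀ a : E, Small R' r₁ ε' (p a) → Small (δ / 4) r₁ ε₁ (p (θ' * a * θ'⁻¹)) := by
    intro a ha
    have h1 : p (θ' * a * θ'⁻¹) = θ * p a * θ⁻¹ := by
      rw [map_mul, map_mul, map_inv, hθ']
    rw [h1]
    exact hθ _ ha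
  have hs : ∀ q ∈ L', Small (δ / 4) r₁ ε₁ (p q.1) ∧ Small (δ / 4) r₁ ε₁ (p q.2) := by
    intro q hq
    rw [hL', List.mem_map] at hq
    obtain ⟨q', hq', rfl⟩ := hq
    exact ⟨hconj _ (hL q' hq').1, hconj _ (hL q' hq').2⟩
  have hlen' : L'.length ≤ m := by rw [hL', List.length_map]; exact hlen
  set U : Set ℂ := Metric.ball (0 : ℂ) (δ / 3) with hU
  set V : Set ℂ := {z | ∃ n : ℕ, ∃ w ∈ U, ((t ^ n : DiffC) : Equiv.Perm ℂ) w = z} with hV
  have hUV : U ⊆ V := fun z hz => ⟨0, z, hz, by simp⟩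
  have hsupp : ∀ a : E, Small (δ / 4) r₁ ε₁ (p a) → a ∈ suppSubgroup p U := by
    intro a ha
    refine ⟨Metric.closedBall (0 : ℂ) (δ / 4), isCompact_closedBall _ _, ?_, fun z hz => ?_⟩
    · exact Metric.closedBall_subset_ball (by linarith)
    · apply ha.1
      rw [Metric.mem_closedBall, dist_zero_right] at hz
      exact le_of_lt (not_le.mp hz)
  have hkey := two_comm (suppSubgroup p U) (fixSubgroup p V) t' (fun x hx z hz =>
      SuppIn.fix hx (fun h => hz (hUV h))) ?_ ?_ L' (fun q hq =>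
        ⟨hsupp _ (hs q hq).1, hsupp _ (hs q hq).2⟩)
  · rw [← hlw]
    refine ⟨by rw [hlw]; exact hker, _, _, _, _, hkey, ?_, ?_, ?_, ?_⟩
    · rw [map_trl, ht']
      refine trl_small hδ hmδ htr hε.le _ ?_ ?_
      · rw [List.length_map, List.length_map]; omega
      · intro g hg
        rw [List.mem_map] at hg
        obtain ⟨a, ha, rfl⟩ := hg
        rw [List.mem_map] at ha
        obtain ⟨q, hq, rfl⟩ := ha
        exact (hs q hq).1.mono hr₁ hε₁'
    · rw [map_trl, ht']
      refine trl_small hδ hmδ htr hε.le _ ?_ ?_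
      · rw [List.length_map, List.length_map]; omega
      · intro g hg
        rw [List.mem_map] at hg
        obtain ⟨a, ha, rfl⟩ := hg
        rw [List.mem_map] at ha
        obtain ⟨q, hq, rfl⟩ := ha
        exact (hs q hq).2.mono hr₁ hε₁'
    · rw [map_trl, ht']
      refine trl_small hδ hmδ htr hε.le _ ?_ ?_
      · rw [List.length_map, List.length_tail, length_tls]; omega
      · intro g hg
        rw [List.mem_map] at hg
        obtain ⟨a, ha, rfl⟩ := hg
        obtain ⟨M, hM, rfl⟩ := mem_tls L' a (List.mem_of_mem_tail ha)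
        rw [map_lw]
        apply hcm
        · rw [List.length_map]
          exact hM.length_le.trans hlen'
        · intro q hq
          rw [List.mem_map] at hq
          obtain ⟨q', hq', rfl⟩ := hq
          exact hs q' (hM.subset hq')
    · rw [ht']; exact ht1
  · intro h hh z hz
    rw [conj_apply_eq p ht', hh, Equiv.apply_symm_apply]
    rintro ⟨n, w, hw, hwz⟩
    refine hz ⟨n + 1, w, hw, ?_⟩
    rw [← pow_apply_succ, hwz, Equiv.apply_symm_apply]
  · intro s hs h hh
    refine commute_of_chart p hp hc hE (isChart_ball 0 (by positivity : 0 < δ / 3)) s _ hs ?_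
    intro z hz
    rw [conj_apply_eq p ht', hh, Equiv.apply_symm_apply]
    rintro ⟨n, w, hw, hwz⟩
    have h2 : ((t ^ (n + 1) : DiffC) : Equiv.Perm ℂ) w = z := by
      rw [← pow_apply_succ, hwz, Equiv.apply_symm_apply]
    have h3 := hW (n + 1) (by omega) w hw
    rw [h2] at h3
    exact h3 hz

end Pool.Agent.H75G
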